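import Pool.Agent.Q90.WsDefs2
import Pool.Agent.Q90.WsMain2

/-!
A countable non-amenable group whose reduced group C*-algebra is matricially weakly semiprojective.
-/

set_option autoImplicit false

namespace Pool.Agent.Results.MP_56ff7a_an.MatricialExample

open Q90.WS2

/-- There is a countable non-amenable group `G` such that `C*_r(G)` is matricially weakly
semiprojective. -/
theorem result :
    ∃ (G : Type) (_ : Group G), Countable G ∧ ¬ Amenable G ∧
      ∃ (H : Type) (_ : NormedAddCommGroup H) (_ : InnerProductSpace ℂ H) (_ : CompleteSpace H)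
        (ρ : LeftRegular G H), MatriciallyWeaklySemiprojective ρ.reduced := by
  have : Fact (Nat.Prime 37) := ⟨by norm_num⟩
  have hK : 36 ≤ Fintype.card (ZMod 37) := by rw [ZMod.card]; norm_num
  obtain ⟨h1, h2⟩ := main (ZMod 37) hK
  exact ⟨Q90.MS.GT (ZMod 37), inferInstance, Q90.MS.countable_G, h1, h2⟩

end Pool.Agent.Results.MP_56ff7a_an.MatricialExample
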